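import Pool.Agent.BLP.StmtsD

set_option autoImplicit false

namespace Pool.Agent.BLP.H18

open MeasureTheory ProbabilityTheory Filter Topology Finset Pool.Agent.BLP
open scoped ENNReal

theorem d_fat : FatStmt := by
  intro X _ μ S C h
  have h1 : {x | ∀ᶠ n in atTop, x ∈ S n} = ⋃ N : ℕ, {x | ∀ n, N ≤ n → x ∈ S n} := by
    ext x
    rw [Set.mem_iUnion]
    exact eventually_atTop
  have hmono : Monotone fun N : ℕ => {x | ∀ n, N ≤ n → x ∈ S n} :=
    fun N N' hN x hx n hn => hx n (hN.trans hn)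
  rw [h1, hmono.measure_iUnion]
  refine iSup_le fun N => ?_
  obtain ⟨n, hn1, hn2⟩ := (frequently_atTop.1 h) N
  have h2 : {x | ∀ n, N ≤ n → x ∈ S n} ⊆ S n := fun x hx => hx n hn1
  exact (measure_mono h2).trans hn2

end Pool.Agent.BLP.H18
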