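import Pool.Agent.BLP.StmtsM

set_option autoImplicit false

namespace Pool.Agent.BLP.H18

open MeasureTheory ProbabilityTheory Filter Topology Finset Pool.Agent.BLP

/-- The hypothesis is `CovStmt` of `StmtsA.lean` (written out). -/
theorem m_trf (hcov : ∀ (b : Env) (m n : ℤ) (s t : ℝ),
    (∀ a : ℝ, L (shT a b) m s n t = L b m (s + a) n (t + a)) ∧
    (∀ k : ℤ, L (shL k b) m s n t = L b (m + k) s (n + k) t) ∧
    ∀ l : ℝ, 0 < l → L (scl l b) m s n t = L b m (l * s) n (l * t) / Real.sqrt l) : TrfStmt := by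
  intro X _ μ B hB k a
  obtain ⟨T1, hT1, h1⟩ := hB.lv k
  obtain ⟨T2, hT2, h2⟩ := hB.tr a
  refine ⟨T2 ∘ T1, hT2.comp hT1, ?_⟩
  have h3 : ∀ᵐ x ∂μ, B (T2 (T1 x)) = shT a (B (T1 x)) := hT1.quasiMeasurePreserving.ae h2
  filter_upwards [h1, h3] with x hx1 hx3 m s n t
  rw [Function.comp_apply, hx3, hx1, (hcov _ m n s t).1 a, (hcov _ m n (s + a) (t + a)).2.1 k]

end Pool.Agent.BLP.H18
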